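import Pool.Agent.Helper64.FL.StC

/-! Full list for MP_866009_co: module HTE. -/

set_option autoImplicit false

namespace Pool.Agent.Helper64.FL

open Pool.Agent.Helper64.CT Pool.Agent.Helper64.DT
open Pool.Agent.Helper64.HG (Ovl Model Circ IC HellyCircle ChordModel)

variable {V : Type}

theorem hte_symm {G : SimpleGraph V} {S : Set V} {x y z a : V} {la : List V} {a' b : V}
    {lb : List V} {b' m m' : V} (h : TTp G S x y z a la a' b lb b' m m') :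
    TTp G S y x z b lb b' a la a' m' m where
  A := h.B
  B := h.A
  Ay := h.Bx
  Az := h.Bz
  Bx := h.Ay
  Bz := h.Az
  AB := fun u hu v hv => ⟨fun e => (h.AB v hv u hu).1 e.symm, fun e => (h.AB v hv u hu).2 e.symm⟩
  mm := by
    rcases h.mm with e | ⟨e1, e2, e3⟩
    · exact Or.inl e.symm
    · exact Or.inr ⟨e1.symm, e3, e2⟩
  zm := h.zm'
  zm' := h.zm
  mF := ⟨h.mF'.2, h.mF'.1⟩
  mF' := ⟨h.mF.2, h.mF.1⟩
  inS := ⟨h.inS.2.1, h.inS.1, h.inS.2.2.2, h.inS.2.2.1⟩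

/-- step (1): if `a` and `x3` are in different components at `z`, the vertices of the component of
`x3` are not mixed on `x`, `m` -/
theorem hte_one (hRAY : ST_RAY) (hCNB : ST_CNB) {G : SimpleGraph V} {Q : Set V} {σ : V → Bool}
    (E : EnvC G Q σ) {x y z a : V} {la : List V} {a' b : V} {lb : List V} {b' m m' x3 y3 : V}
    (hx : x ∈ Q) (hy : y ∈ Q) (hz : z ∈ Q) (_ : x ≠ y) (xz : x ≠ z) (yz : y ≠ z)
    (T : TTp G Qᶜ x y z a la a' b lb b' m m') (hB : BE G Q x y x3 y3) (hs : σ a = σ x3)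
    (hn : ¬ Comp G z a x3) : ∀ v, Comp G z x3 v → (G.Adj v x ↔ G.Adj v m) := by
  obtain ⟨r1, r2, r3, r4, r5, r6⟩ := hRAY V G Q E.red.df E.mx
  obtain ⟨c1, c2, c3, c4, c5, c6, c7⟩ := hCNB V G
  have zx : G.Adj z x := E.mx.1 z hz x hx xz.symm
  have zy : G.Adj z y := E.mx.1 z hz y hy yz.symm
  have aQ : a ∈ Qᶜ := T.inS.1 (Or.inl rfl)
  have ra : RayQ G Q x a := ⟨hx, T.A.yb, aQ⟩
  have hC : Comp G z x3 y3 := (r4 x y x3 y3 hB).2.2.2.2 z hz xz.symm yz.symm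
  have hx3 : x3 ∈ Far G z := (r1 x x3 z hB.2.1 hz xz.symm).1
  have self3 : Comp G z x3 x3 := ⟨hx3, hx3, SimpleGraph.Reachable.refl _⟩
  have ax3 : x ∈ Att G z x3 := ⟨zx, x3, self3, hB.2.1.2.1⟩
  have ay3 : y ∈ Att G z x3 := ⟨zy, y3, hC, hB.2.2.1.2.1⟩
  have aFz : a ∈ Far G z := T.Az (Or.inl rfl)
  have aFy : a ∈ Far G y := T.Ay (Or.inl rfl)
  have selfa : Comp G z a a := ⟨aFz, aFz, SimpleGraph.Reachable.refl _⟩
  have mxa : Mixed G a (Att G z x3) := ⟨⟨x, ax3, T.A.yb.symm⟩, ⟨y, ay3, fun e => aFy.2 e.symm⟩⟩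
  have haa' : Comp G z a a' := (c5 z a a').2 (c7 (Far G z) a la a' T.A.pth
    ⟨aFz, T.Az (Or.inr (Or.inr rfl)), fun u hu => T.Az (Or.inr (Or.inl hu))⟩)
  have axa : x ∈ Att G z a := ⟨zx, a, selfa, T.A.yb⟩
  have ama : m ∈ Att G z a := ⟨T.zm, a', haa', T.A.mb⟩
  have nc : ¬ Conf G z a x3 := fun hc => (E.sg x a x3 z ra hB.2.1 hz xz.symm).2 hc hs
  intro v hv
  by_contra hcon
  apply nc
  refine ⟨hn, ⟨a, selfa, mxa⟩, v, hv, ?_⟩
  by_cases h1 : G.Adj v x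
  · have h2 : ¬ G.Adj v m := fun h2 => hcon ⟨fun _ => h2, fun _ => h1⟩
    exact ⟨⟨x, axa, h1⟩, ⟨m, ama, h2⟩⟩
  · have h2 : G.Adj v m := by
      by_contra h2
      exact hcon ⟨fun h => absurd h h1, fun h => absurd h h2⟩
    exact ⟨⟨m, ama, h2⟩, ⟨x, axa, h1⟩⟩

/-- step (3) -/
theorem hte_three (hCAB : ST_CAB) (hQCD : ST_QCD) (hRAY : ST_RAY) (hCNB : ST_CNB) (hPTB : ST_PTB)
    {G : SimpleGraph V} {Q : Set V} {σ : V → Bool}
    (E : EnvC G Q σ) {x y z a : V} {la : List V} {a' b : V} {lb : List V} {b' m m' x3 y3 : V}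
    (hx : x ∈ Q) (hy : y ∈ Q) (hz : z ∈ Q) (xy : x ≠ y) (xz : x ≠ z) (yz : y ≠ z)
    (T : TTp G Qᶜ x y z a la a' b lb b' m m') (hB : BE G Q x y x3 y3)
    (hD : ∀ v, Comp G z x3 v → (G.Adj v x ↔ G.Adj v m)) (hb : Comp G z b y3) : False := by
  obtain ⟨r1, r2, r3, r4, r5, r6⟩ := hRAY V G Q E.red.df E.mx
  obtain ⟨c1, c2, c3, c4, c5, c6, c7⟩ := hCNB V G
  have gxz : G.Adj x z := E.mx.1 x hx z hz xz
  have gyz : G.Adj y z := E.mx.1 y hy z hz yz
  have gxy : G.Adj x y := E.mx.1 x hx y hy xy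
  have hC : Comp G z x3 y3 := (r4 x y x3 y3 hB).2.2.2.2 z hz xz.symm yz.symm
  have hx3z : x3 ∈ Far G z := (r1 x x3 z hB.2.1 hz xz.symm).1
  have hx3y : x3 ∈ Far G y := (r1 x x3 y hB.2.1 hy xy.symm).1
  have self3 : Comp G z x3 x3 := ⟨hx3z, hx3z, SimpleGraph.Reachable.refl _⟩
  have x3x : G.Adj x x3 := hB.2.1.2.1
  have m3 : G.Adj m x3 := ((hD x3 self3).1 x3x.symm).symm
  have bFz : b ∈ Far G z := T.Bz (Or.inl rfl)
  have hbb' : Comp G z b b' := (c5 z b b').2 (c7 (Far G z) b lb b' T.B.pth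
    ⟨bFz, T.Bz (Or.inr (Or.inr rfl)), fun u hu => T.Bz (Or.inr (Or.inl hu))⟩)
  have h3b : Comp G z x3 b := (c5 z x3 b).2 (c2 _ _ _ _ ((c5 z x3 y3).1 hC)
    (c1 _ _ _ ((c5 z b y3).1 hb)).2)
  have h3b' : Comp G z x3 b' := (c5 z x3 b').2 (c2 _ _ _ _ ((c5 z x3 b).1 h3b)
    ((c5 z b b').1 hbb'))
  have b'Fx : b' ∈ Far G x := T.Bx (Or.inr (Or.inr rfl))
  rcases T.mm with e | ⟨e1, e2, e3⟩
  · have h1 : G.Adj b' m := by rw [e]; exact T.B.mb.symm
    exact b'Fx.2 ((hD b' h3b').2 h1).symm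
  · by_cases hv : ∃ v ∈ PV b lb b', G.Adj x3 v
    · exact hQCD V G E.np x y z x3 b lb b' m m' gxy gxz gyz x3x m3 hx3y hx3z T.B T.Bx T.Bz e3 T.zm
        T.zm' e1 T.mF.1 T.mF.2 T.mF'.1 T.mF'.2 hv
    · have hPV : ∀ u ∈ PV x3 [] x3, u = x3 := by
        intro u hu
        rcases hu with h | h | h
        · exact h
        · exact absurd h (List.not_mem_nil)
        · exact h
      have x3m : x3 ≠ m := fun h => T.mF.1.2 (h ▸ x3x)
      have x3m' : x3 ≠ m' := fun h => T.mF'.1.2 (h ▸ x3x)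
      have T' : TTp G Qᶜ x y z x3 [] x3 b lb b' m m' :=
        { A := { pth := (hPTB V G).2.2.2.2.2 x3
                 yb := x3x
                 mb := m3
                 ny := fun u hu => by
                   rw [hPV u hu]
                   exact ⟨fun h => x3x.ne h.symm, fun _ => rfl⟩
                 nm := fun u hu => by
                   rw [hPV u hu]
                   exact ⟨x3m, fun _ => rfl⟩ }
          B := T.B
          Ay := fun u hu => by rw [hPV u hu]; exact hx3y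
          Az := fun u hu => by rw [hPV u hu]; exact hx3z
          Bx := T.Bx
          Bz := T.Bz
          AB := fun u hu v hv' => by
            rw [hPV u hu]
            refine ⟨fun h => (T.Bx hv').2 (h ▸ x3x), fun h => hv ⟨v, hv', h⟩⟩
          mm := Or.inr ⟨e1, fun u hu => by
            rw [hPV u hu]
            refine ⟨x3m', fun h => hx3z.2 ?_⟩
            exact E.red.df m m' z x3 e1 T.zm.symm T.zm'.symm m3 h (fun h' => hx3z.1 h'.symm), e3⟩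
          zm := T.zm
          zm' := T.zm'
          mF := T.mF
          mF' := T.mF'
          inS := ⟨fun u hu => by rw [hPV u hu]; exact hB.2.1.2.2, T.inS.2⟩ }
      exact hCAB V G Qᶜ E.np x y z x3 [] x3 b lb b' m m' gxy gxz gyz T' h3b

theorem st_HTE (hCAB : ST_CAB) (hQCD : ST_QCD) (hQCF : ST_QCF) (hSPN : ST_SPN) (hRAY : ST_RAY)
    (hCNB : ST_CNB) (hPTB : ST_PTB) : ST_HTE := by
  intro V G Q σ E x y z a la a' b lb b' m m' x3 y3 hx hy hz xy xz yz T hB hsa hsb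
  obtain ⟨r1, r2, r3, r4, r5, r6⟩ := hRAY V G Q E.red.df E.mx
  obtain ⟨c1, c2, c3, c4, c5, c6, c7⟩ := hCNB V G
  have gxz : G.Adj x z := E.mx.1 x hx z hz xz
  have gyz : G.Adj y z := E.mx.1 y hy z hz yz
  have gxy : G.Adj x y := E.mx.1 x hx y hy xy
  have hB' : BE G Q y x y3 x3 := (r4 x y x3 y3 hB).1
  have T' := hte_symm T
  have hC : Comp G z x3 y3 := (r4 x y x3 y3 hB).2.2.2.2 z hz xz.symm yz.symm
  have hx3z : x3 ∈ Far G z := (r1 x x3 z hB.2.1 hz xz.symm).1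
  have hx3y : x3 ∈ Far G y := (r1 x x3 y hB.2.1 hy xy.symm).1
  have self3 : Comp G z x3 x3 := ⟨hx3z, hx3z, SimpleGraph.Reachable.refl _⟩
  have csym : ∀ {c u v : V}, Comp G c u v → Comp G c v u := fun {c u v} h =>
    (c5 c v u).2 (c1 _ _ _ ((c5 c u v).1 h)).2
  have ctr : ∀ {c u v w : V}, Comp G c u v → Comp G c v w → Comp G c u w := fun {c u v w} h h' =>
    (c5 c u w).2 (c2 _ _ _ _ ((c5 c u v).1 h) ((c5 c v w).1 h'))
  by_cases ca : Comp G z a x3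
  · by_cases cb : Comp G z b y3
    · exact hCAB V G Qᶜ E.np x y z a la a' b lb b' m m' gxy gxz gyz T
        (ctr ca (ctr hC (csym cb)))
    · have hD := hte_one hRAY hCNB E hy hx hz xy.symm yz xz T' hB' hsb cb
      exact hte_three hCAB hQCD hRAY hCNB hPTB E hy hx hz xy.symm yz xz T' hB' hD ca
  · have hD := hte_one hRAY hCNB E hx hy hz xy xz yz T hB hsa ca
    by_cases cb : Comp G z b y3
    · exact hte_three hCAB hQCD hRAY hCNB hPTB E hx hy hz xy xz yz T hB hD cb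
    · have hD' : ∀ v, Comp G z x3 v → (G.Adj v y ↔ G.Adj v m') := fun v hv =>
        hte_one hRAY hCNB E hy hx hz xy.symm yz xz T' hB' hsb cb v (ctr (csym hC) hv)
      have x3x : G.Adj x x3 := hB.2.1.2.1
      rcases T.mm with e | ⟨e1, e2, e3⟩
      · have h1 : G.Adj x3 m' := by rw [← e]; exact (hD x3 self3).1 x3x.symm
        exact hx3y.2 ((hD' x3 self3).2 h1).symm
      · obtain ⟨x4, M, y4, h1, h2, h3, h4, h5, h6, -⟩ := hSPN V G (KC G z x3) {v | G.Adj x v}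
          {v | G.Adj y v} ⟨x3, x3x, y3, hB.2.2.1.2.1, c6 z x3 y3 hC⟩
        have g1 : G.Adj x x4 := h1
        have g3 : G.Adj y y4 := h3
        have k2 : Comp G z x3 x4 := h2
        have k4 : Comp G z x3 y4 := h4
        have F4 : x4 ∈ Far G z := k2.2.1
        have F4' : y4 ∈ Far G z := k4.2.1
        have q4 : RayQ G Q x x4 := ⟨hx, g1, r3 z hz x4 F4⟩
        have q4' : RayQ G Q y y4 := ⟨hy, g3, r3 z hz y4 F4'⟩
        refine hQCF V G E.np x y z x4 M y4 m m' gxy gxz gyz g1 ((hD x4 k2).1 g1.symm).symm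
          (r1 x x4 y q4 hy xy.symm).1 F4 g3 ((hD' y4 k4).1 g3.symm).symm (r1 y y4 x q4' hx xy).1 F4'
          T.zm T.zm' e1 T.mF.1 T.mF.2 T.mF'.1 T.mF'.2 h5 ?_
        intro u hu
        obtain ⟨h7, h8, h9⟩ := h6 u hu
        have k7 : Comp G z x3 u := h7
        have F7 : u ∈ Far G z := k7.2.1
        refine ⟨⟨fun e => F7.2 (e ▸ gxz.symm), h8⟩, ⟨fun e => F7.2 (e ▸ gyz.symm), h9⟩, F7⟩

end Pool.Agent.Helper64.FL
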