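import Pool.Agent.Helper64.FL.StC

/-! Full list for MP_866009_co: module HR3. -/

set_option autoImplicit false

namespace Pool.Agent.Helper64.FL

open Pool.Agent.Helper64.CT Pool.Agent.Helper64.DT
open Pool.Agent.Helper64.HG (Ovl Model Circ IC HellyCircle ChordModel)

variable {V : Type}

/-- a shortest path between a ray of `z` and a ray of `y` -/
structure Hr3P (G : SimpleGraph V) (Q : Set V) (z y m : V) (M : List V) (l : V) : Prop where
  zy : z ≠ y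
  rm : RayQ G Q z m
  rl : RayQ G Q y l
  pth : Pth G m M l
  zz : PV m M l ⊆ ZZ G Q z y
  ex : ∀ u ∈ PV m M l, (G.Adj z u → u = m) ∧ (G.Adj y u → u = l)

theorem hr3_path (hSPN : ST_SPN) (hRAY : ST_RAY) {G : SimpleGraph V} {Q : Set V} (hdf : DF G)
    (hmx : MaxC G Q) {z y u w : V} (h : BE G Q z y u w) : ∃ m M l, Hr3P G Q z y m M l := by
  obtain ⟨r1, r2, r3, r4, r5, r6⟩ := hRAY V G Q hdf hmx
  obtain ⟨h1, h2, h3, h4⟩ := h
  obtain ⟨m, M, l, k1, k2, k3, k4, k5, k6, k7⟩ := hSPN V G (ZZ G Q z y) {v | G.Adj z v}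
    {v | G.Adj y v} ⟨u, h2.2.1, w, h3.2.1, h4⟩
  have g1 : G.Adj z m := k1
  have g3 : G.Adj y l := k3
  have rm : RayQ G Q z m := ⟨h2.1, g1, k2.1⟩
  have rl : RayQ G Q y l := ⟨h3.1, g3, k4.1⟩
  have hml : m ≠ l := fun e => h1 (r2 z y m rm (e ▸ rl))
  obtain ⟨k8, k9⟩ := k7 hml
  have k8' : ¬ G.Adj y m := k8
  have k9' : ¬ G.Adj z l := k9
  refine ⟨m, M, l, ⟨h1, rm, rl, k5, ?_, ?_⟩⟩
  · intro v hv
    rcases hv with e | e | e
    · rw [e]; exact k2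
    · exact (k6 v e).1
    · rw [e]; exact k4
  · intro v hv
    rcases hv with e | e | e
    · rw [e]; exact ⟨fun _ => rfl, fun h => absurd h k8'⟩
    · have k10 : ¬ G.Adj z v := (k6 v e).2.1
      have k11 : ¬ G.Adj y v := (k6 v e).2.2
      exact ⟨fun h => absurd h k10, fun h => absurd h k11⟩
    · rw [e]; exact ⟨fun h => absurd h k9', fun _ => rfl⟩

theorem hr3_far {G : SimpleGraph V} {Q : Set V} {z y v q : V} (hv : v ∈ ZZ G Q z y) (hq : q ∈ Q)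
    (h1 : q ≠ z) (h2 : q ≠ y) : v ∈ Far G q :=
  ⟨fun e => hv.1 (e ▸ hq), hv.2 q hq h1 h2⟩

theorem hr3_cn (hCNB : ST_CNB) (hPTB : ST_PTB) {G : SimpleGraph V} : ∀ (l : List V) (a w : V),
    Pth G a l w → ∀ u ∈ PV a l w, Cn G (PV a l w) a u := by
  obtain ⟨c1, c2, c3, c4, c5, c6, c7⟩ := hCNB V G
  obtain ⟨p1, p2, p3, p4, p5, p6⟩ := hPTB V G
  intro l
  induction l with
  | nil =>
    intro a w h u hu
    have ha : a ∈ PV a [] w := Or.inl rfl
    rcases hu with e | e | e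
    · rw [e]; exact ⟨ha, Relation.ReflTransGen.refl⟩
    · exact absurd e List.not_mem_nil
    · rcases p4 a w h with e' | e'
      · rw [e, ← e']; exact ⟨Or.inl rfl, Relation.ReflTransGen.refl⟩
      · rw [e]; exact c4 _ _ _ ha (Or.inr (Or.inr rfl)) e'
  | cons p l ih =>
    intro a w h u hu
    obtain ⟨q1, q2, q3, q4, q5, q6⟩ := p3 a p l w h
    have hsub : PV p l w ⊆ PV a (p :: l) w := by
      intro v hv
      rcases hv with e | e | e
      · exact Or.inr (Or.inl (e ▸ List.mem_cons_self))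
      · exact Or.inr (Or.inl (List.mem_cons_of_mem _ e))
      · exact Or.inr (Or.inr e)
    have ha : a ∈ PV a (p :: l) w := Or.inl rfl
    have hp : p ∈ PV a (p :: l) w := hsub (Or.inl rfl)
    have key : ∀ v ∈ PV p l w, Cn G (PV a (p :: l) w) a v := fun v hv =>
      c2 _ _ _ _ (c4 _ _ _ ha hp q1) (c3 _ _ _ _ hsub (ih p w q5 v hv))
    rcases hu with e | e | e
    · rw [e]; exact ⟨ha, Relation.ReflTransGen.refl⟩
    · rcases List.mem_cons.1 e with e' | e'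
      · exact key u (Or.inl e')
      · exact key u (Or.inr (Or.inl e'))
    · exact key u (Or.inr (Or.inr e))

/-- the path without its first vertex, reversed -/
theorem hr3_tail (hPTB : ST_PTB) {G : SimpleGraph V} {m l : V} {M : List V} (h : Pth G m M l)
    (hne : m ≠ l) : ∃ L c, Pth G l L c ∧ G.Adj m c ∧
      (∀ u ∈ PV l L c, u ∈ PV m M l ∧ u ≠ m ∧ (G.Adj m u → u = c)) := by
  obtain ⟨p1, p2, p3, p4, p5, p6⟩ := hPTB V G
  cases M with
  | nil =>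
    rcases p4 m l h with e | e
    · exact absurd e hne
    · refine ⟨[], l, p6 l, e, ?_⟩
      intro u hu
      have : u = l := by
        rcases hu with h | h | h
        · exact h
        · exact absurd h List.not_mem_nil
        · exact h
      rw [this]
      exact ⟨Or.inr (Or.inr rfl), hne.symm, fun _ => rfl⟩
  | cons p M =>
    obtain ⟨q1, q2, q3, q4, q5, q6⟩ := p3 m p M l h
    refine ⟨M.reverse, p, p1 _ _ _ q5, q1, ?_⟩
    intro u hu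
    rcases hu with e | e | e
    · rw [e]; exact ⟨Or.inr (Or.inr rfl), hne.symm, fun h' => absurd h' q3⟩
    · have e' : u ∈ M := List.mem_reverse.1 e
      exact ⟨Or.inr (Or.inl (List.mem_cons_of_mem _ e')), (q6 u e').1.symm,
        fun h' => absurd h' (q6 u e').2⟩
    · rw [e]; exact ⟨Or.inr (Or.inl List.mem_cons_self), q1.ne.symm, fun _ => rfl⟩

theorem hr3_comp (hCNB : ST_CNB) (hPTB : ST_PTB) {G : SimpleGraph V} {Q : Set V} {z y m l k : V}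
    {M : List V} (h : Hr3P G Q z y m M l) (hk : k ∈ Q) (h1 : k ≠ z) (h2 : k ≠ y) :
    ∀ u ∈ PV m M l, Comp G k m u := by
  obtain ⟨c1, c2, c3, c4, c5, c6, c7⟩ := hCNB V G
  intro u hu
  exact (c5 k m u).2 (c3 _ _ _ _ (fun v hv => hr3_far (h.zz hv) hk h1 h2)
    (hr3_cn hCNB hPTB M m l h.pth u hu))

/-- the paths are anticomplete if their components at `k` are different -/
theorem hr3_anti (hCNB : ST_CNB) (hPTB : ST_PTB) {G : SimpleGraph V} {Q : Set V}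
    {z y m l y' m' l' k : V} {M M' : List V} (h : Hr3P G Q z y m M l)
    (h' : Hr3P G Q z y' m' M' l') (hk : k ∈ Q) (h1 : k ≠ z) (h2 : k ≠ y) (h3 : k ≠ y')
    (hc : ¬ Comp G k m m') : Anti G (PV m M l) (PV m' M' l') := by
  obtain ⟨c1, c2, c3, c4, c5, c6, c7⟩ := hCNB V G
  intro u hu v hv
  have k1 := (c5 _ _ _).1 (hr3_comp hCNB hPTB h hk h1 h2 u hu)
  have k2 := (c5 _ _ _).1 (hr3_comp hCNB hPTB h' hk h1 h3 v hv)
  constructor
  · intro e
    exact hc ((c5 _ _ _).2 (c2 _ _ _ _ k1 (e ▸ (c1 _ _ _ k2).2)))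
  · intro e
    exact hc ((c5 _ _ _).2 (c2 _ _ _ _ (c2 _ _ _ _ k1 (c4 _ _ _ (c1 _ _ _ k1).1 (c1 _ _ _ k2).1 e))
      (c1 _ _ _ k2).2))

/-- the signs and the components at a third vertex -/
theorem hr3_sg (hNCF : ST_NCF) (hCNB : ST_CNB) (hPTB : ST_PTB) {G : SimpleGraph V} {Q : Set V}
    {σ : V → Bool} (E : EnvC G Q σ) {z y m l y' m' l' k : V} {M M' : List V}
    (h : Hr3P G Q z y m M l) (h' : Hr3P G Q z y' m' M' l') (hk : k ∈ Q) (h1 : k ≠ z) (h2 : k ≠ y)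
    (h3 : k ≠ y') : (σ m = σ m' → Comp G k m m') ∧ (σ m ≠ σ m' → ¬ Comp G k m m') := by
  have key := hNCF V G Q E.red.df E.mx z k m m' y l y' l' h.rm h'.rm hk h1 h.rl h.zy.symm h2.symm
    (hr3_comp hCNB hPTB h hk h1 h2 l (Or.inr (Or.inr rfl))) h'.rl h'.zy.symm h3.symm
    (hr3_comp hCNB hPTB h' hk h1 h3 l' (Or.inr (Or.inr rfl)))
  have sg := E.sg z m m' k h.rm h'.rm hk h1
  constructor
  · intro e
    rcases key with c | c
    · exact c
    · exact absurd e (sg.2 c)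
  · intro e c
    exact e (sg.1 c)

/-- case (b) -/
theorem hr3_b [Finite V] (hNCF : ST_NCF) (hTTX : ST_TTX) (hHT3 : ST_HT3) (hQC4 : ST_QC4)
    (hRAY : ST_RAY) (hCNB : ST_CNB) (hPTB : ST_PTB) {G : SimpleGraph V} {Q : Set V}
    {σ : V → Bool} (E : EnvC G Q σ) {z y0 y1 y2 m0 m1 m2 l0 l1 l2 : V} {M0 M1 M2 : List V}
    (h0 : Hr3P G Q z y0 m0 M0 l0) (h1 : Hr3P G Q z y1 m1 M1 l1) (h2 : Hr3P G Q z y2 m2 M2 l2)
    (y01 : y0 ≠ y1) (y02 : y0 ≠ y2) (y12 : y1 ≠ y2)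
    (cov : ∀ v, v = z ∨ (v = y0 ∨ v ∈ PV m0 M0 l0) ∨ (v = y1 ∨ v ∈ PV m1 M1 l1) ∨
      (v = y2 ∨ v ∈ PV m2 M2 l2)) (s01 : σ m0 = σ m1) (s02 : σ m0 ≠ σ m2) : False := by
  obtain ⟨r1, r2, r3, r4, r5, r6⟩ := hRAY V G Q E.red.df E.mx
  obtain ⟨c1, c2, c3, c4, c5, c6, c7⟩ := hCNB V G
  have zQ : z ∈ Q := h0.rm.1
  have y0Q : y0 ∈ Q := h0.rl.1
  have y1Q : y1 ∈ Q := h1.rl.1
  have y2Q : y2 ∈ Q := h2.rl.1
  have adj : ∀ {u v : V}, u ∈ Q → v ∈ Q → u ≠ v → G.Adj u v := fun {u v} hu hv huv =>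
    E.mx.1 u hu v hv huv
  have A02 : Anti G (PV m0 M0 l0) (PV m2 M2 l2) := hr3_anti hCNB hPTB h0 h2 y1Q h1.zy.symm
    y01.symm y12 ((hr3_sg hNCF hCNB hPTB E h0 h2 y1Q h1.zy.symm y01.symm y12).2 s02)
  have A12 : Anti G (PV m1 M1 l1) (PV m2 M2 l2) := hr3_anti hCNB hPTB h1 h2 y0Q h0.zy.symm
    y01 y02 ((hr3_sg hNCF hCNB hPTB E h1 h2 y0Q h0.zy.symm y01 y02).2 (s01 ▸ s02))
  have C2 : Comp G y2 m0 m1 :=
    (hr3_sg hNCF hCNB hPTB E h0 h1 y2Q h2.zy.symm y02.symm y12.symm).1 s01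
  have hS : ∃ S : Set V, S = PV m0 M0 l0 ∪ PV m1 M1 l1 := ⟨_, rfl⟩
  obtain ⟨S, hS⟩ := hS
  have S0 : PV m0 M0 l0 ⊆ S := by rw [hS]; exact Set.subset_union_left
  have S1 : PV m1 M1 l1 ⊆ S := by rw [hS]; exact Set.subset_union_right
  have AS : ∀ u ∈ S, ∀ v ∈ PV m2 M2 l2, u ≠ v ∧ ¬ G.Adj u v := by
    intro u hu v hv
    rw [hS] at hu
    rcases hu with h | h
    · exact A02 u h v hv
    · exact A12 u h v hv
  have SQ' : ∀ v ∈ S, v ∉ Q := by
    intro v hv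
    rw [hS] at hv
    rcases hv with h | h
    · exact (h0.zz h).1
    · exact (h1.zz h).1
  -- vertices of `S` are not adjacent to further vertices of `Q`
  have SZ : ∀ v ∈ S, ∀ q ∈ Q, q ≠ z → q ≠ y0 → q ≠ y1 → ¬ G.Adj q v := by
    intro v hv q hq e1 e2 e3
    rw [hS] at hv
    rcases hv with h | h
    · exact (h0.zz h).2 q hq e1 e2
    · exact (h1.zz h).2 q hq e1 e3
  have SF : S ⊆ Far G y2 := fun v hv =>
    ⟨fun e => SQ' v hv (e ▸ y2Q), SZ v hv y2 y2Q h2.zy.symm y02.symm y12.symm⟩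
  have cS : Cn G S m0 m1 := by
    have hm0 : m0 ∈ S := S0 (Or.inl rfl)
    have hc := (c5 _ _ _).1 C2
    have key : ∀ v, Relation.ReflTransGen (fun u w => G.Adj u w ∧ w ∈ Far G y2) m0 v →
        v ∈ S ∧ Cn G S m0 v := by
      intro v hv
      induction hv with
      | refl => exact ⟨hm0, hm0, Relation.ReflTransGen.refl⟩
      | @tail b c _ hbc ih =>
        obtain ⟨i1, i2⟩ := ih
        obtain ⟨j1, j2⟩ := hbc
        have hcS : c ∈ S := by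
          rcases cov c with e | e | e | e
          · exact absurd (e ▸ adj y2Q zQ h2.zy.symm : G.Adj y2 c) j2.2
          · rcases e with e | e
            · exact absurd (e ▸ adj y2Q y0Q y02.symm : G.Adj y2 c) j2.2
            · exact S0 e
          · rcases e with e | e
            · exact absurd (e ▸ adj y2Q y1Q y12.symm : G.Adj y2 c) j2.2
            · exact S1 e
          · rcases e with e | e
            · exact absurd e j2.1
            · exact absurd j1 (AS b i1 c e).2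
        exact ⟨hcS, c2 _ _ _ _ i2 (c4 _ _ _ i1 hcS j1)⟩
    exact (key m1 hc.2).2
  have cn0 : ∀ v ∈ PV m0 M0 l0, Cn G S m0 v := fun v hv =>
    c3 _ _ _ _ S0 (hr3_cn hCNB hPTB M0 m0 l0 h0.pth v hv)
  have cn1 : ∀ v ∈ PV m1 M1 l1, Cn G S m0 v := fun v hv =>
    c2 _ _ _ _ cS (c3 _ _ _ _ S1 (hr3_cn hCNB hPTB M1 m1 l1 h1.pth v hv))
  have cnS : ∀ v ∈ S, Cn G S m0 v := by
    intro v hv
    rw [hS] at hv
    rcases hv with h | h
    · exact cn0 v h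
    · exact cn1 v h
  have csS : ∀ u ∈ S, ∀ v ∈ S, Cn G S u v := fun u hu v hv =>
    c2 _ _ _ _ (c1 _ _ _ (cnS u hu)).2 (cnS v hv)
  have cF : ∀ u ∈ S, ∀ v ∈ S, Comp G y2 u v := fun u hu v hv =>
    (c5 _ _ _).2 (c3 _ _ _ _ SF (csS u hu v hv))
  have l0S : l0 ∈ S := S0 (Or.inr (Or.inr rfl))
  have m0S : m0 ∈ S := S0 (Or.inl rfl)
  have l1S : l1 ∈ S := S1 (Or.inr (Or.inr rfl))
  have m1S : m1 ∈ S := S1 (Or.inl rfl)
  have be0 : BE G Q z y0 m0 l0 := ⟨h0.zy, h0.rm, h0.rl,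
    c3 _ _ _ _ h0.zz (hr3_cn hCNB hPTB M0 m0 l0 h0.pth l0 (Or.inr (Or.inr rfl)))⟩
  have be1 : BE G Q z y1 m1 l1 := ⟨h1.zy, h1.rm, h1.rl,
    c3 _ _ _ _ h1.zz (hr3_cn hCNB hPTB M1 m1 l1 h1.pth l1 (Or.inr (Or.inr rfl)))⟩
  have be1' : BE G Q y1 z l1 m1 := (r4 _ _ _ _ be1).1
  -- a connection between `y0` and `y1` inside `S`
  have fin : ∀ p0 p1, p0 ∈ S → p1 ∈ S → BE G Q y0 y1 p0 p1 → False := by
    intro p0 p1 hp0 hp1 hbe
    have e0 : σ l0 = σ p0 := (E.sg y0 l0 p0 y2 h0.rl hbe.2.1 y2Q y02.symm).1 (cF l0 l0S p0 hp0)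
    have e1 : σ l1 = σ p1 := (E.sg y1 l1 p1 y2 h1.rl hbe.2.2.1 y2Q y12.symm).1
      (cF l1 l1S p1 hp1)
    have key := hHT3 V G Q σ E z y0 y1 m0 l0 p0 p1 l1 m1 be0 hbe be1'
    rw [← e0, ← e1, ← s01] at key
    revert key
    cases σ m0 <;> cases σ l0 <;> cases σ l1 <;> decide
  have T := hTTX V G Q S E.red.df E.ci E.np E.mx SQ' y0 y1 z l0 l1 m0 y0Q y1Q zQ y01 h0.zy.symm
    h1.zy.symm l0S l1S m0S h0.rl.2.1 h1.rl.2.1 h0.rm.2.1 (csS _ l0S _ l1S) (csS _ l0S _ m0S)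
  rcases T with T | T | T
  · obtain ⟨a, la, a', b, lb, b', m, m', T⟩ := T
    have ml2 : m2 ≠ l2 := fun e => h2.zy (r2 z y2 m2 h2.rm (e ▸ h2.rl))
    obtain ⟨L, c, t1, t2, t3⟩ := hr3_tail hPTB h2.pth ml2
    have P2Q : ∀ u ∈ PV m2 M2 l2, u ∉ Q := fun u hu => (h2.zz hu).1
    refine hQC4 V G S E.np z y0 y1 y2 a la a' b lb b' m m' m2 l2 L c
      (adj zQ y0Q h0.zy) (adj zQ y1Q h1.zy) (adj zQ y2Q h2.zy) (adj y0Q y1Q y01)
      (adj y0Q y2Q y02) (adj y1Q y2Q y12) T (fun u hu => SF (T.inS.1 hu))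
      (fun u hu => SF (T.inS.2.1 hu)) (SF T.inS.2.2.1) (SF T.inS.2.2.2) h2.rm.2.1
      (hr3_far (h2.zz (Or.inl rfl)) y0Q h0.zy.symm y02)
      (hr3_far (h2.zz (Or.inl rfl)) y1Q h1.zy.symm y12)
      (r1 z m2 y2 h2.rm y2Q h2.zy.symm).1
      { pth := t1
        yb := h2.rl.2.1
        mb := t2
        ny := fun u hu => ⟨fun e => P2Q u (t3 u hu).1 (e ▸ y2Q), (h2.ex u (t3 u hu).1).2⟩
        nm := fun u hu => ⟨(t3 u hu).2.1, (t3 u hu).2.2⟩ }
      (fun u hu => ⟨fun e => P2Q u (t3 u hu).1 (e ▸ zQ),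
        fun e => (t3 u hu).2.1 ((h2.ex u (t3 u hu).1).1 e)⟩)
      (fun u hu => hr3_far (h2.zz (t3 u hu).1) y0Q h0.zy.symm y02)
      (fun u hu => hr3_far (h2.zz (t3 u hu).1) y1Q h1.zy.symm y12) ?_
    intro u hu v hv
    have hu' : u ∈ PV m2 M2 l2 := by
      rcases hu with e | e
      · exact Or.inl e
      · exact (t3 u e).1
    have hv' : v ∈ S := by
      rcases hv with e | e | e | e
      · rw [e]; exact T.inS.2.2.1
      · rw [e]; exact T.inS.2.2.2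
      · exact T.inS.1 e
      · exact T.inS.2.1 e
    exact ⟨fun e => (AS v hv' u hu').1 e.symm, fun e => (AS v hv' u hu').2 e.symm⟩
  · obtain ⟨a, la, a', b, lb, b', m, m', T⟩ := T
    -- `y0` in the middle, the arm from `a` (ray of `y1`) to `m` (ray of `y0`)
    have hz : ∀ u ∈ PV a la a', u ∈ ZZ G Q y0 y1 := by
      intro u hu
      refine ⟨SQ' u (T.inS.1 hu), ?_⟩
      intro q hq e1 e2 e3
      by_cases e4 : q = z
      · exact (T.Ay hu).2 (e4 ▸ e3)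
      · exact SZ u (T.inS.1 hu) q hq e4 e1 e2 e3
    have hm : m ∈ ZZ G Q y0 y1 := by
      refine ⟨SQ' m T.inS.2.2.1, ?_⟩
      intro q hq e1 e2 e3
      by_cases e4 : q = z
      · exact T.mF.2.2 (e4 ▸ e3)
      · exact SZ m T.inS.2.2.1 q hq e4 e1 e2 e3
    refine fin m a T.inS.2.2.1 (T.inS.1 (Or.inl rfl)) ⟨y01, ⟨y0Q, T.zm, SQ' m T.inS.2.2.1⟩,
      ⟨y1Q, T.A.yb, SQ' a (T.inS.1 (Or.inl rfl))⟩, ?_⟩
    have k1 : Cn G (ZZ G Q y0 y1) a a' := c3 _ _ _ _ hz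
      (hr3_cn hCNB hPTB la a a' T.A.pth a' (Or.inr (Or.inr rfl)))
    exact c2 _ _ _ _ (c4 _ _ _ hm (hz a' (Or.inr (Or.inr rfl))) T.A.mb) (c1 _ _ _ k1).2
  · obtain ⟨a, la, a', b, lb, b', m, m', T⟩ := T
    -- `y1` in the middle, the arm from `b` (ray of `y0`) to `m'` (ray of `y1`)
    have hz : ∀ u ∈ PV b lb b', u ∈ ZZ G Q y0 y1 := by
      intro u hu
      refine ⟨SQ' u (T.inS.2.1 hu), ?_⟩
      intro q hq e1 e2 e3
      by_cases e4 : q = z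
      · exact (T.Bx hu).2 (e4 ▸ e3)
      · exact SZ u (T.inS.2.1 hu) q hq e4 e1 e2 e3
    have hm : m' ∈ ZZ G Q y0 y1 := by
      refine ⟨SQ' m' T.inS.2.2.2, ?_⟩
      intro q hq e1 e2 e3
      by_cases e4 : q = z
      · exact T.mF'.1.2 (e4 ▸ e3)
      · exact SZ m' T.inS.2.2.2 q hq e4 e1 e2 e3
    refine fin b m' (T.inS.2.1 (Or.inl rfl)) T.inS.2.2.2 ⟨y01, ⟨y0Q, T.B.yb,
      SQ' b (T.inS.2.1 (Or.inl rfl))⟩, ⟨y1Q, T.zm', SQ' m' T.inS.2.2.2⟩, ?_⟩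
    have k1 : Cn G (ZZ G Q y0 y1) b b' := c3 _ _ _ _ hz
      (hr3_cn hCNB hPTB lb b b' T.B.pth b' (Or.inr (Or.inr rfl)))
    exact c2 _ _ _ _ k1 (c4 _ _ _ (hz b' (Or.inr (Or.inr rfl))) hm T.B.mb.symm)

/-- case (a) -/
theorem hr3_a (hRCX : ST_RCX) (hNCF : ST_NCF) (hCNB : ST_CNB) (hPTB : ST_PTB)
    {G : SimpleGraph V} {Q : Set V} {σ : V → Bool} (E : EnvC G Q σ) {z : V} {y m l : ℕ → V}
    {M : ℕ → List V} (h : ∀ i < 3, Hr3P G Q z (y i) (m i) (M i) (l i))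
    (yy : ∀ i < 3, ∀ j < 3, i ≠ j → y i ≠ y j)
    (s01 : ∀ i < 3, ∀ j < 3, σ (m i) = σ (m j)) : False := by
  obtain ⟨c1, c2, c3, c4, c5, c6, c7⟩ := hCNB V G
  have lt3 : ∀ i : ℕ, i % 3 < 3 := fun i => Nat.mod_lt i (by norm_num)
  have key : ∀ i < 3, ∀ j < 3, ∀ k < 3, k ≠ i → k ≠ j → Comp G (y k) (l i) (l j) := by
    intro i hi j hj k hk e1 e2
    have f1 := hr3_comp hCNB hPTB (h i hi) (h k hk).rl.1 (h k hk).zy.symm (yy k hk i hi e1) (l i)
      (Or.inr (Or.inr rfl))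
    have f2 := hr3_comp hCNB hPTB (h j hj) (h k hk).rl.1 (h k hk).zy.symm (yy k hk j hj e2) (l j)
      (Or.inr (Or.inr rfl))
    have f3 := (hr3_sg hNCF hCNB hPTB E (h i hi) (h j hj) (h k hk).rl.1 (h k hk).zy.symm
      (yy k hk i hi e1) (yy k hk j hj e2)).1 (s01 i hi j hj)
    exact (c5 _ _ _).2 (c2 _ _ _ _ (c1 _ _ _ ((c5 _ _ _).1 f1)).2
      (c2 _ _ _ _ ((c5 _ _ _).1 f3) ((c5 _ _ _).1 f2)))
  have R : Rcy G Q 3 (fun i => y (i % 3)) (fun i => l (i % 3)) (fun i => l (i % 3)) :=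
    { m3 := le_refl 3
      pq := fun i => by simp only [Nat.add_mod_right]
      pu := fun i => by simp only [Nat.add_mod_right]
      pw := fun i => by simp only [Nat.add_mod_right]
      inj := fun i j h1 h2 => yy _ (lt3 i) _ (lt3 j) (by omega)
      rU := fun i => (h _ (lt3 i)).rl
      rW := fun i => (h _ (lt3 i)).rl
      lk := fun i j h1 h2 => key _ (lt3 i) _ (lt3 (i + 1)) _ (lt3 j) (by omega) (by omega) }
  obtain ⟨i, hi⟩ := hRCX V G Q σ E 3 _ _ _ R (by simp [xs]) z (h 0 (by norm_num)).rm.1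
  exact (h _ (lt3 i)).zy hi.symm

theorem st_HR3 (hR3S : ST_R3S) (hRCX : ST_RCX) (hNCF : ST_NCF) (hTTX : ST_TTX) (hHT3 : ST_HT3)
    (hQC4 : ST_QC4) (hSPN : ST_SPN) (hRAY : ST_RAY) (hCNB : ST_CNB) (hPTB : ST_PTB) :
    ST_HR3 := by
  intro V _ G Q σ E z y u w hbe yy
  have h1 : ∀ i, ∃ m M l, i < 3 → Hr3P G Q z (y i) m M l := by
    intro i
    by_cases hi : i < 3
    · obtain ⟨m, M, l, h⟩ := hr3_path hSPN hRAY E.red.df E.mx (hbe i hi)
      exact ⟨m, M, l, fun _ => h⟩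
    · exact ⟨z, [], z, fun h => absurd h hi⟩
  choose m M l h using h1
  have cov := hR3S V G Q E.red E.mx z y l m M
    (fun i hi => ⟨(h i hi).zy, (h i hi).rm, (h i hi).rl, (h i hi).pth, (h i hi).zz, (h i hi).ex⟩) yy
  have h0' := h 0 (by norm_num)
  have h1' := h 1 (by norm_num)
  have h2' := h 2 (by norm_num)
  have y01 : y 0 ≠ y 1 := yy 0 (by norm_num) 1 (by norm_num) (by norm_num)
  have y02 : y 0 ≠ y 2 := yy 0 (by norm_num) 2 (by norm_num) (by norm_num)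
  have y12 : y 1 ≠ y 2 := yy 1 (by norm_num) 2 (by norm_num) (by norm_num)
  have cov' : ∀ v, v = z ∨ (v = y 0 ∨ v ∈ PV (m 0) (M 0) (l 0)) ∨
      (v = y 1 ∨ v ∈ PV (m 1) (M 1) (l 1)) ∨ (v = y 2 ∨ v ∈ PV (m 2) (M 2) (l 2)) := by
    intro v
    rcases cov v with e | ⟨i, hi, e⟩
    · exact Or.inl e
    · have hi' : i = 0 ∨ i = 1 ∨ i = 2 := by omega
      rcases hi' with e' | e' | e'
      · subst e'; exact Or.inr (Or.inl e)
      · subst e'; exact Or.inr (Or.inr (Or.inl e))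
      · subst e'; exact Or.inr (Or.inr (Or.inr e))
  by_cases s1 : σ (m 0) = σ (m 1)
  · by_cases s2 : σ (m 0) = σ (m 2)
    · refine hr3_a hRCX hNCF hCNB hPTB E h yy ?_
      have s0 : ∀ i < 3, σ (m i) = σ (m 0) := by
        intro i hi
        have hi' : i = 0 ∨ i = 1 ∨ i = 2 := by omega
        rcases hi' with e' | e' | e'
        · rw [e']
        · rw [e', s1]
        · rw [e', s2]
      intro i hi j hj
      rw [s0 i hi, s0 j hj]
    · exact hr3_b hNCF hTTX hHT3 hQC4 hRAY hCNB hPTB E h0' h1' h2' y01 y02 y12 cov' s1 s2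
  · by_cases s2 : σ (m 0) = σ (m 2)
    · -- `m 0`, `m 2` equal, `m 1` different
      refine hr3_b hNCF hTTX hHT3 hQC4 hRAY hCNB hPTB E h0' h2' h1' y02 y01 y12.symm ?_ s2 s1
      intro v
      rcases cov' v with e | e | e | e
      · exact Or.inl e
      · exact Or.inr (Or.inl e)
      · exact Or.inr (Or.inr (Or.inr e))
      · exact Or.inr (Or.inr (Or.inl e))
    · -- `m 1`, `m 2` equal
      have s3 : σ (m 1) = σ (m 2) := by
        revert s1 s2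
        cases σ (m 0) <;> cases σ (m 1) <;> cases σ (m 2) <;> simp
      refine hr3_b hNCF hTTX hHT3 hQC4 hRAY hCNB hPTB E h1' h2' h0' y12 y01.symm y02.symm ?_ s3
        (fun e => s1 e.symm)
      intro v
      rcases cov' v with e | e | e | e
      · exact Or.inl e
      · exact Or.inr (Or.inr (Or.inr e))
      · exact Or.inr (Or.inl e)
      · exact Or.inr (Or.inr (Or.inl e))

end Pool.Agent.Helper64.FL
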